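import Pool.Agent.N874.PP.Def

set_option autoImplicit false

/-! PP-EXS (for helper874): primes with nonresidues, irreducible cubics. -/

open Polynomial

namespace Pool.Agent.N498.PP

open Pool.Agent.N874.PP

/-- irreducible depressed cubics exist over every finite field -/
theorem irr : S_IRR := by
  intro k _ _ _
  have hni : ¬ Function.Injective (fun x : k => x ^ 3 - x) := by
    intro h
    have := @h 0 1 (by simp)
    exact zero_ne_one this
  have hns : ¬ Function.Surjective (fun x : k => x ^ 3 - x) :=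
    fun h => hni (Finite.injective_iff_surjective.2 h)
  simp only [Function.Surjective, not_forall, not_exists] at hns
  obtain ⟨b, hb⟩ := hns
  refine ⟨-1, -b, ?_⟩
  have hdeg : (X ^ 3 + C (-1) * X + C (-b) : k[X]).natDegree = 3 := by compute_degree!
  have hm : (X ^ 3 + C (-1) * X + C (-b) : k[X]).Monic := by monicity!
  rw [hm.irreducible_iff_roots_eq_zero_of_degree_le_three (by omega) (by omega)]
  rw [Multiset.eq_zero_iff_forall_notMem]
  intro x hx
  rw [mem_roots hm.ne_zero, IsRoot.def] at hx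
  simp only [eval_add, eval_pow, eval_X, eval_mul, eval_C] at hx
  exact hb x (by linear_combination hx)

/-- arbitrarily many monic irreducible polynomials -/
theorem exists_primes (k : Type) [Field k] (r : ℕ) :
    ∃ S : Finset k[X], S.card = r ∧ ∀ Q ∈ S, Q.Monic ∧ Irreducible Q := by
  classical
  induction r with
  | zero => exact ⟨∅, rfl, by simp⟩
  | succ r ih =>
    obtain ⟨S, hS, hS2⟩ := ih
    have hP : (∏ Q ∈ S, Q).Monic := monic_prod_of_monic _ _ fun Q hQ => (hS2 Q hQ).1
    have hM : (X * ∏ Q ∈ S, Q : k[X]).natDegree = 1 + (∏ Q ∈ S, Q).natDegree := by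
      rw [monic_X.natDegree_mul hP, natDegree_X]
    have hu : ¬ IsUnit (X * ∏ Q ∈ S, Q + C 1 : k[X]) := by
      intro h
      have h1 := natDegree_eq_zero_of_isUnit h
      rw [natDegree_add_C, hM] at h1
      omega
    obtain ⟨g, hg1, hg2, hg3⟩ := exists_monic_irreducible_factor _ hu
    have hgS : g ∉ S := by
      intro h
      have h1 : g ∣ X * ∏ Q ∈ S, Q := (Finset.dvd_prod_of_mem (fun Q => Q) h).mul_left _
      have h2 : g ∣ C 1 := by
        have := dvd_sub hg3 h1
        rwa [add_sub_cancel_left] at this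
      exact hg2.not_isUnit (isUnit_of_dvd_one (by rwa [C_1] at h2))
    refine ⟨insert g S, by rw [Finset.card_insert_of_notMem hgS, hS], fun Q hQ => ?_⟩
    rw [Finset.mem_insert] at hQ
    rcases hQ with rfl | hQ
    · exact ⟨hg1, hg2⟩
    · exact hS2 Q hQ

/-- nonresidues -/
theorem exists_nonres (k : Type) [Field k] [Finite k] (h6 : (6 : k) ≠ 0) (Q : k[X]) (hm : Q.Monic)
    (hi : Irreducible Q) : ∃ s : k[X], ∀ z : k[X], ¬ Q ∣ z ^ 2 + s := by
  have : Fact (Irreducible Q) := ⟨hi⟩
  have : Module.Finite k (AdjoinRoot Q) := hm.finite_adjoinRoot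
  have : Finite (AdjoinRoot Q) := Module.finite_of_finite k
  have h2 : ringChar (AdjoinRoot Q) ≠ 2 := by
    intro h
    have h3 : ((2 : ℕ) : AdjoinRoot Q) = 0 := by
      rw [← h]
      exact ringChar.Nat.cast_ringChar
    have h4 : AdjoinRoot.of Q (6 : k) = 0 := by
      have : (6 : k) = ((2 : ℕ) : k) * 3 := by norm_num
      rw [this, map_mul, map_natCast, h3, zero_mul]
    exact h6 ((AdjoinRoot.of Q).injective (by rw [h4, map_zero]))
  obtain ⟨a, ha⟩ := FiniteField.exists_nonsquare h2
  obtain ⟨s, hs⟩ := AdjoinRoot.mk_surjective (g := Q) (-a)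
  refine ⟨s, fun z hz => ha ?_⟩
  rw [← AdjoinRoot.mk_eq_zero, map_add, map_pow, hs] at hz
  exact ⟨AdjoinRoot.mk Q z, by linear_combination -hz⟩

/-- primes with nonresidues -/
theorem exs : S_EXS := by
  intro k _ _ h6 r
  classical
  obtain ⟨S, hS, hS2⟩ := exists_primes k r
  refine ⟨S, fun Q => if h : Q.Monic ∧ Irreducible Q then (exists_nonres k h6 Q h.1 h.2).choose else 0,
    fun Q hQ => ?_, hS⟩
  have h := hS2 Q hQ
  refine ⟨h.1, h.2, ?_⟩
  beta_reduce
  rw [dif_pos h]
  exact (exists_nonres k h6 Q h.1 h.2).choose_spec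

end Pool.Agent.N498.PP
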