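import Pool.Agent.N874.PP.Lat

set_option autoImplicit false

/-! PP-LIN (for helper874): linear algebra over the field with two elements. -/

namespace Pool.Agent.N498.PP

open Pool.Agent.N874.PP

theorem lin : S_LIN := by
  intro ι _ Λ hΛ
  classical
  set P : Finset ι → Prop := fun J => ∀ f : ι → ZMod 2,
    ∃ l ∈ Λ, (∀ i, (l i).1 = 0) ∧ ∀ i ∈ J, (l i).2 = f i with hPdef
  have hP0 : P ∅ := fun f => ⟨0, Λ.zero_mem, fun i => rfl, by simp⟩
  obtain ⟨J, hJ, hmax⟩ := Finset.exists_max_image ((Finset.univ : Finset (Finset ι)).filter P)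
    Finset.card ⟨∅, Finset.mem_filter.2 ⟨Finset.mem_univ _, hP0⟩⟩
  rw [Finset.mem_filter] at hJ
  have hsur := hJ.2
  have hinj : ∀ l ∈ Λ, (∀ i, (l i).1 = 0) → (∀ i ∈ J, (l i).2 = 0) → l = 0 := by
    intro l hl h1 h2
    by_contra hne
    obtain ⟨i0, hi0⟩ : ∃ i, (l i).2 ≠ 0 := by
      by_contra h
      push Not at h
      exact hne (funext fun i => Prod.ext (h1 i) (h i))
    have hi0J : i0 ∉ J := fun h => hi0 (h2 i0 h)
    have hP : P (insert i0 J) := by
      intro f
      obtain ⟨m, hm, hm1, hm2⟩ := hsur f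
      by_cases he : (m i0).2 = f i0
      · refine ⟨m, hm, hm1, fun i hi => ?_⟩
        rw [Finset.mem_insert] at hi
        rcases hi with rfl | hi
        · exact he
        · exact hm2 i hi
      · refine ⟨m + l, Λ.add_mem hm hl, fun i => ?_, fun i hi => ?_⟩
        · simp [hm1 i, h1 i]
        · rw [Finset.mem_insert] at hi
          rcases hi with rfl | hi
          · have key : ∀ a b c : ZMod 2, a ≠ c → b ≠ 0 → a + b = c := by decide
            exact key _ _ _ he hi0
          · simp [hm2 i hi, h2 i hi]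
    have h3 := hmax (insert i0 J) (Finset.mem_filter.2 ⟨Finset.mem_univ _, hP⟩)
    rw [Finset.card_insert_of_notMem hi0J] at h3
    omega
  refine ⟨(J : Set ι), fun l hl h2 h1 => ?_⟩
  have hpol : ∀ m ∈ Λ, (∀ i, (m i).1 = 0) → ∑ i, (l i).1 * (m i).2 = 0 := by
    intro m hm hm1
    have e1 := hΛ _ (Λ.add_mem hl hm)
    have e2 := hΛ _ hl
    have e3 : ∑ i, ((l + m) i).1 * ((l + m) i).2 =
        ∑ i, (l i).1 * (l i).2 + ∑ i, (l i).1 * (m i).2 := by
      rw [← Finset.sum_add_distrib]
      refine Finset.sum_congr rfl fun i _ => ?_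
      simp [hm1 i, mul_add]
    rw [e3, e2, zero_add] at e1
    exact e1
  have h1' : ∀ i, (l i).1 = 0 := by
    intro i
    by_cases hi : i ∈ J
    · obtain ⟨m, hm, hm1, hm2⟩ := hsur (Pi.single i 1)
      have h4 := hpol m hm hm1
      rw [Finset.sum_eq_single i] at h4
      · rwa [hm2 i hi, Pi.single_eq_same, mul_one] at h4
      · intro j _ hj
        by_cases hjJ : j ∈ J
        · rw [hm2 j hjJ, Pi.single_eq_of_ne hj, mul_zero]
        · rw [h1 j (by exact_mod_cast hjJ), zero_mul]
      · simp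
    · exact h1 i (by exact_mod_cast hi)
  exact hinj l hl h1' (fun i hi => h2 i (by exact_mod_cast hi))

end Pool.Agent.N498.PP
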